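import Mathlib

set_option autoImplicit false

namespace Pool.Agent.Results.MP_cd64ef_nt.ZSix

/-- the `t`-popular sumset -/
def pop (A B : Finset (ZMod 6)) (t : ℕ) : Finset (ZMod 6) :=
  Finset.univ.filter (fun g => t ≤ ((A ×ˢ B).filter (fun p => p.1 + p.2 = g)).card)

/-- the stabilizer of a subset -/
def stab (X : Finset (ZMod 6)) : Finset (ZMod 6) :=
  Finset.univ.filter (fun e => X.image (fun x => e + x) = X)

theorem result : ∃ (t s u : ℕ) (A B : Finset (ZMod 6)),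
    1 ≤ t ∧ t ≤ A.card ∧ t ≤ B.card ∧
    ((∑ i ∈ Finset.Icc 1 t, (pop A B i).card : ℕ) : ℤ) <
      (t : ℤ) * A.card + (t : ℤ) * B.card - (t : ℤ) ^ 2 ∧
    t = s * (stab (pop A B t)).card + u ∧ 1 ≤ u ∧ u ≤ (stab (pop A B t)).card ∧
    ¬ ∃ A' B' : Finset (ZMod 6), A' ⊆ A ∧ B' ⊆ B ∧
      (A \ A').card + (B \ B').card < u ∧
      (pop A' B' 1 = pop A' B' u ∧ pop A' B' u = pop A B u) ∧
      (stab (pop A' B' 1) = stab (pop A B t) ∧ stab (pop A' B' u) = stab (pop A B t)) := by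
  refine ⟨3, 1, 1, {0, 1, 3, 4}, {0, 1, 3, 4}, by decide, by decide, by decide, by decide,
    by decide, by decide, by decide, ?_⟩
  rintro ⟨A', B', _, _, _, ⟨_, h1⟩, _, h2⟩
  rw [h1] at h2
  revert h2
  decide

end Pool.Agent.Results.MP_cd64ef_nt.ZSix
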